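import Pool.Agent.H71.CR.Stmt

/-!
# Row KPA (MP_5607ba_lc, board cwr_modules)
-/

set_option autoImplicit false

open Set Pool.Agent.TK Pool.Agent.H71.VK

namespace Pool.Agent.CR

section

variable {n : Bd} {c : Lf} {Sm : Pr → Prop}

theorem h5_mem_st {G : GS n c Sm} {π : Pr} {X : List ℕ} {a : ℕ} (h : G.Mb π X [a]) :
    a ∈ st c π := (h a (List.mem_singleton.2 rfl)).1

theorem h5_mob {G : GS n c Sm} {π : Pr} {X : List ℕ} {a : ℕ} (h : G.Mb π X [a]) :
    ¬ G.sup (a :: X) ⊆ G.sup X := (h a (List.mem_singleton.2 rfl)).2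

theorem h5_sng {G : GS n c Sm} {π : Pr} {X e : List ℕ} (h : G.Mb π X e) {a : ℕ} (ha : a ∈ e) :
    G.Mb π X [a] := fun b hb => by
  rw [List.mem_singleton.1 hb]
  exact h a ha

/-- FACT A -/
theorem h5_factA {G : GS n c Sm} {π : Pr} {B S L : List ℕ} {F : Ed} (hS : G.Sit π B S L F)
    {a : ℕ} (h : G.Mb π B [a]) (hI : G.In B S [a]) : a ∈ Ur (st c π) (L ++ zl π) := by
  refine ⟨h5_mem_st h, fun ha => ?_⟩
  rcases List.mem_append.1 ha with h1 | h1
  · have h2 := ((hS.L1 a).1 h1).1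
    refine h5_mob h fun j hj => ?_
    refine hI j ?_ hj
    refine G.mono (a :: B) (S ++ B) ?_ hj
    intro b hb
    rcases List.mem_cons.1 hb with rfl | hb
    · exact List.mem_append_left _ h2
    · exact List.mem_append_right _ hb
  · exact zl_disj hS.bt.bs.vd a h1 (h5_mem_st h)

/-- FACT B -/
theorem h5_factB {G : GS n c Sm} {π : Pr} {B S L : List ℕ} {F : Ed} (hS : G.Sit π B S L F)
    {p : List (ℕ × ℕ)} (hp : ∀ z ∈ p, z.1 ∈ st c π ∧ z.2 ∈ st c π)
    (h : Pl c c (dg (L ++ zl π) ++ p)) : Pl c c (dg S ++ p) := by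
  classical
  have h1 : Pl c c (dg (zl π) ++ (dg L ++ p)) := by
    refine h.mono fun z hz => ?_
    rw [dg_append]
    simp only [List.mem_append] at hz ⊢
    tauto
  have h2 : ∀ z ∈ dg L ++ p, z.1 ∈ st c π ∧ z.2 ∈ st c π := by
    intro z hz
    rcases List.mem_append.1 hz with h3 | h3
    · have h4 := mem_dg.1 h3
      have h5 : z.1 ∈ st c π := ((hS.L1 z.1).1 h4.2).2
      exact ⟨h5, h4.1 ▸ h5⟩
    · exact hp z h3
  have h3 := ctl hS.bt.bs.vd h2 h1 (D := S.filter fun a => decide (a ∉ st c π)) (by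
    intro y hy
    have := (List.mem_filter.1 hy).2
    simpa using this)
  refine h3.mono fun z hz => ?_
  rcases List.mem_append.1 hz with h4 | h4
  · have h5 := mem_dg.1 h4
    by_cases h6 : z.1 ∈ st c π
    · refine List.mem_append_right _ (List.mem_append_right _ (List.mem_append_left _ ?_))
      exact mem_dg.2 ⟨h5.1, (hS.L1 z.1).2 ⟨h5.2, h6⟩⟩
    · refine List.mem_append_left _ (mem_dg.2 ⟨h5.1, ?_⟩)
      exact List.mem_filter.2 ⟨h5.2, by simpa using h6⟩
  · exact List.mem_append_right _ (List.mem_append_right _ (List.mem_append_right _ h4))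

/-- the converse of FACT B -/
theorem h5_factC {G : GS n c Sm} {π : Pr} {B S L : List ℕ} {F : Ed} (hS : G.Sit π B S L F)
    {p : List (ℕ × ℕ)} (h : Pl c c (dg S ++ p)) : Pl c c (dg (L ++ zl π) ++ p) := by
  refine h.mono fun z hz => ?_
  rcases List.mem_append.1 hz with h4 | h4
  · have h5 := mem_dg.1 h4
    refine List.mem_append_left _ (mem_dg.2 ⟨h5.1, ?_⟩)
    rcases List.mem_append.1 h5.2 with h6 | h6
    · exact ((hS.L1 z.1).1 h6).1
    · exact hS.bt.sub (hS.bt.bs.dlB (zl_sub_dl π h6))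
  · exact List.mem_append_right _ h4

theorem h5_eS {G : GS n c Sm} {π : Pr} {B S L : List ℕ} {F : Ed} (hS : G.Sit π B S L F)
    {e : List ℕ} (he : e ∈ F) : ∀ a ∈ e, a ∈ st c π := fun a ha =>
  ((hS.F1 e he).1.mb a ha).1

theorem h5_In_eq {G : GS n c Sm} {B S : List ℕ} {v w : ℕ} (hI : G.In B S [v])
    (h : G.sup (w :: B) = G.sup (v :: B)) : G.In B S [w] := by
  intro j hj hj'
  refine hI j hj ?_
  have h1 : j ∈ G.sup (w :: B) := hj'
  rw [h] at h1
  exact h1

/-- KPA (i) -/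
theorem h5_kp1 (hTED : T_TED) {G : GS n c Sm} {π : Pr} {B S L : List ℕ} {F : Ed}
    (hS : G.Sit π B S L F) {v : ℕ} (hv : G.Mb π B [v]) (hI : G.In B S [v]) :
    ∀ w ∈ Kp c π L F v, w ∈ Ur (st c π) (L ++ zl π) ∧ G.Mb π B [w] ∧
      G.sup (w :: B) = G.sup (v :: B) := by
  intro w hw
  induction hw with
  | refl => exact ⟨h5_factA hS hv hI, hv, rfl⟩
  | tail _ hst ih =>
    obtain ⟨e, he, d, hl, hd, hpl, hx, hy⟩ := hst
    obtain ⟨-, ih2, ih3⟩ := ih
    have h1 : Pl c c (dg S ++ d.zip e) := by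
      refine h5_factB hS ?_ hpl
      intro z hz
      obtain ⟨h2, h3⟩ := List.of_mem_zip (a := z.1) (b := z.2) hz
      exact ⟨(hd _ h2).1, h5_eS hS he _ h3⟩
    obtain ⟨h2, h3⟩ := hS.F1 e he
    obtain ⟨h4, h5⟩ := hTED n c Sm G π B S hS.bt e d h2 h3 hl (fun a ha => (hd a ha).1) h1 _ hx
      ih2 (h5_In_eq hI ih3) _ hy
    exact ⟨hd _ hy, h4, h5.trans ih3⟩

/-- KPA (ii) -/
theorem h5_kp2 (hTED : T_TED) (hESU : T_ESU) {G : GS n c Sm} {π : Pr} {B S L : List ℕ} {F : Ed}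
    (hS : G.Sit π B S L F) {v : ℕ} (hv : G.Mb π B [v]) (hI : G.In B S [v]) :
    ∀ e : List ℕ, G.Eg π B e → (∃ a ∈ e, a ∈ Kp c π L F v) → ∀ a ∈ e, a ∈ Kp c π L F v := by
  rintro e he ⟨a, ha, haK⟩ b hb
  have h1 := hESU n c Sm G π B hS.bt.bs e he
  obtain ⟨h2, h3, h4⟩ := h5_kp1 hTED hS hv hI a haK
  have h5 : ∀ x ∈ e, G.sup (x :: B) = G.sup (v :: B) := fun x hx => by
    rw [h1 x hx, ← h1 a ha, h4]
  have h6 : G.In B S e := by
    intro j hj hj'
    refine hI j hj ?_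
    rw [← h1 a ha, h4] at hj'
    exact hj'
  obtain ⟨e', he', hl, hpl⟩ := hS.F2 e he h6
  refine Relation.ReflTransGen.tail haK ⟨e', he', e, hl.symm, ?_, h5_factC hS hpl, ha, hb⟩
  intro x hx
  exact h5_factA hS (h5_sng he.mb hx) (h5_In_eq hI (h5 x hx))

/-- KPA (iii) -/
theorem h5_kp3 (hTED : T_TED) (hESU : T_ESU) (hSEP : T_SEP) {G : GS n c Sm} {π : Pr}
    {B S L : List ℕ} {F : Ed} (hS : G.Sit π B S L F) {v : ℕ} (hv : G.Mb π B [v])
    (hI : G.In B S [v]) : Cc c (L ++ zl π) F (Ur (st c π) (L ++ zl π)) (Kp c π L F v) := by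
  have k1 := h5_kp1 hTED hS hv hI
  refine ⟨fun w hw => (k1 w hw).1, ?_, ?_⟩
  · intro p hp hpl D hD
    have hzip : (p.map Prod.fst).zip (p.map Prod.snd) = p := by
      rw [List.zip_map']
      conv_rhs => rw [← List.map_id p]
      exact List.map_congr_left fun z _ => rfl
    have hB : Pl c c (dg B ++ (p.map Prod.fst).zip (p.map Prod.snd)) := by
      rw [hzip]
      refine (h5_factB hS (fun z hz => ⟨(k1 _ (hp z hz).1).1.1, (k1 _ (hp z hz).2).1.1⟩)
        hpl).mono fun z hz => ?_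
      rcases List.mem_append.1 hz with h4 | h4
      · have h5 := mem_dg.1 h4
        exact List.mem_append_left _ (mem_dg.2 ⟨h5.1, hS.bt.sub h5.2⟩)
      · exact List.mem_append_right _ h4
    have hx : ∀ a ∈ p.map Prod.fst, a ∈ Kp c π L F v := by
      intro a ha
      obtain ⟨z, hz, rfl⟩ := List.mem_map.1 ha
      exact (hp z hz).1
    have hx' : ∀ a ∈ p.map Prod.snd, a ∈ Kp c π L F v := by
      intro a ha
      obtain ⟨z, hz, rfl⟩ := List.mem_map.1 ha
      exact (hp z hz).2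
    have h1 := hSEP n c Sm G π B hS.bt.bs (p.map Prod.fst) (p.map Prod.snd) (D ++ L) (by simp)
      (fun a ha => (k1 a (hx a ha)).2.1 a (List.mem_singleton.2 rfl))
      (fun a ha => (k1 a (hx' a ha)).2.1 a (List.mem_singleton.2 rfl))
      (by
        intro a ha
        rcases List.mem_append.1 ha with h4 | h4
        · exact (hD a h4).1.1
        · exact ((hS.L1 a).1 h4).2)
      (by
        rintro e he ⟨b, hb, hbC⟩ a ha
        have key : a ∉ Kp c π L F v := by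
          intro haK
          have hbK := h5_kp2 hTED hESU hS hv hI e he ⟨a, ha, haK⟩ b hb
          rcases List.mem_append.1 hbC with h4 | h4
          · exact (hD b h4).2 hbK
          · exact (k1 b hbK).1.2 (List.mem_append_left _ h4)
        exact ⟨fun h => key (hx a h), fun h => key (hx' a h)⟩)
      hB
    rw [hzip] at h1
    refine h1.mono fun z hz => ?_
    rcases List.mem_append.1 hz with h4 | h4
    · have h5 := mem_dg.1 h4
      exact List.mem_append_left _ (mem_dg.2 ⟨h5.1, List.mem_append_left _ h5.2⟩)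
    rcases List.mem_append.1 h4 with h5 | h5
    · have h6 := mem_dg.1 h5
      rcases List.mem_append.1 h6.2 with h7 | h7
      · exact List.mem_append_left _ (mem_dg.2 ⟨h6.1, List.mem_append_right _ h7⟩)
      · refine List.mem_append_right _ (List.mem_append_left _ (mem_dg.2 ⟨h6.1, ?_⟩))
        exact hS.bt.bs.dlB (zl_sub_dl π h7)
    · exact List.mem_append_right _ (List.mem_append_right _ h5)
  · rintro e he d hl hd hpl ⟨x, hx, hxK⟩ y hy
    exact Relation.ReflTransGen.tail hxK ⟨e, he, d, hl, hd, hpl, hx, hy⟩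

/-- KPA (iv) -/
theorem h5_kp4 (hTED : T_TED) (hESU : T_ESU) (hSEP : T_SEP) {G : GS n c Sm} {π : Pr}
    {B S L : List ℕ} {F : Ed} (hS : G.Sit π B S L F) {v : ℕ} (hv : G.Mb π B [v])
    (hI : G.In B S [v]) : cl c (st c π) (L ++ zl π) F ([v], []) = Kp c π L F v := by
  apply Subset.antisymm
  · refine cl_min (h5_kp3 hTED hESU hSEP hS hv hI) ?_
    intro a ha
    rw [List.mem_singleton.1 ha]
    exact Relation.ReflTransGen.refl
  · intro w hw
    refine ⟨(h5_kp1 hTED hS hv hI w hw).1, fun Z hZ hZv => ?_⟩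
    induction hw with
    | refl => exact hZv v (List.mem_singleton.2 rfl)
    | tail _ hst ih =>
      obtain ⟨e, he, d, hl, hd, hpl, hx, hy⟩ := hst
      exact hZ.edg e he d hl hd hpl ⟨_, hx, ih⟩ _ hy

theorem h5_kp_symm {π : Pr} {L : List ℕ} {F : Ed} {v w : ℕ} (h : w ∈ Kp c π L F v) :
    v ∈ Kp c π L F w := by
  induction h with
  | refl => exact Relation.ReflTransGen.refl
  | tail _ hst ih =>
    obtain ⟨e, he, d, hl, hd, hpl, hx, hy⟩ := hst
    exact Relation.ReflTransGen.head ⟨e, he, d, hl, hd, hpl, hy, hx⟩ ih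

end

/-- KPA -/
theorem pf_KPA (hTED : T_TED) (hESU : T_ESU) (hSEP : T_SEP) : T_KPA := by
  intro n c Sm G π B S L F hS v hv hI
  refine ⟨h5_kp1 hTED hS hv hI, h5_kp2 hTED hESU hS hv hI, h5_kp3 hTED hESU hSEP hS hv hI,
    h5_kp4 hTED hESU hSEP hS hv hI, ?_⟩
  intro w hw
  rw [h5_kp4 hTED hESU hSEP hS hv hI] at hw
  obtain ⟨h1, h2, h3⟩ := h5_kp1 hTED hS hv hI w hw
  rw [h5_kp4 hTED hESU hSEP hS h2 (h5_In_eq hI h3)]
  exact h5_kp_symm hw

end Pool.Agent.CR
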