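import Pool.Agent.H5.CR.KPA

/-!
# Row KPB (MP_5607ba_lc, board cwr_modules)
-/

set_option autoImplicit false

open Set Pool.Agent.TK Pool.Agent.H71.VK

namespace Pool.Agent.CR

/-- KPB -/
theorem pf_KPB (hKPA : T_KPA) (hSEP : T_SEP) (hSP2 : T_SP2) : T_KPB := by
  intro n c Sm G π B S L F hS v v' hv hI hv' hI' hne p q hp hq hpl hql D hD
  obtain ⟨k1, k2, -, -, -⟩ := hKPA n c Sm G π B S L F hS v hv hI
  obtain ⟨l1, l2, -, -, -⟩ := hKPA n c Sm G π B S L F hS v' hv' hI'
  have hdj : ∀ w, w ∈ Kp c π L F v → w ∉ Kp c π L F v' := fun w hw hw' =>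
    hne (Relation.ReflTransGen.trans hw (h5_kp_symm hw'))
  have hzip : ∀ r : List (ℕ × ℕ), (r.map Prod.fst).zip (r.map Prod.snd) = r := by
    intro r
    rw [List.zip_map']
    conv_rhs => rw [← List.map_id r]
    exact List.map_congr_left fun z _ => rfl
  have toB : ∀ r : List (ℕ × ℕ), (∀ z ∈ r, z.1 ∈ st c π ∧ z.2 ∈ st c π) →
      Pl c c (dg (L ++ zl π) ++ r) → Pl c c (dg B ++ (r.map Prod.fst).zip (r.map Prod.snd)) := by
    intro r hr hrl
    rw [hzip]
    refine (h5_factB hS hr hrl).mono fun z hz => ?_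
    rcases List.mem_append.1 hz with h4 | h4
    · have h5 := mem_dg.1 h4
      exact List.mem_append_left _ (mem_dg.2 ⟨h5.1, hS.bt.sub h5.2⟩)
    · exact List.mem_append_right _ h4
  have px : ∀ a ∈ p.map Prod.fst, a ∈ Kp c π L F v := by
    intro a ha
    obtain ⟨z, hz, rfl⟩ := List.mem_map.1 ha
    exact (hp z hz).1
  have py : ∀ a ∈ p.map Prod.snd, a ∈ Kp c π L F v' := by
    intro a ha
    obtain ⟨z, hz, rfl⟩ := List.mem_map.1 ha
    exact (hp z hz).2
  have qx : ∀ a ∈ q.map Prod.fst, a ∈ Kp c π L F v' := by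
    intro a ha
    obtain ⟨z, hz, rfl⟩ := List.mem_map.1 ha
    exact (hq z hz).1
  have qy : ∀ a ∈ q.map Prod.snd, a ∈ Kp c π L F v := by
    intro a ha
    obtain ⟨z, hz, rfl⟩ := List.mem_map.1 ha
    exact (hq z hz).2
  have mk : ∀ x : List ℕ, (∀ a ∈ x, a ∈ Kp c π L F v) → G.Mb π B x := fun x hx a ha =>
    (k1 a (hx a ha)).2.1 a (List.mem_singleton.2 rfl)
  have ml : ∀ x : List ℕ, (∀ a ∈ x, a ∈ Kp c π L F v') → G.Mb π B x := fun x hx a ha =>
    (l1 a (hx a ha)).2.1 a (List.mem_singleton.2 rfl)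
  have h1 : Pl c c (dg B ++ (p.map Prod.fst ++ q.map Prod.fst).zip
      (p.map Prod.snd ++ q.map Prod.snd)) := by
    refine hSP2 n c Sm G π B hS.bt.bs _ _ _ _ (by simp) (by simp) (mk _ px) (ml _ qx) (ml _ py)
      (mk _ qy) ?_ ?_ (toB p ?_ hpl) (toB q ?_ hql)
    · rintro e he ⟨a, ha, hax⟩ b hb hbx
      exact hdj b (k2 e he ⟨a, ha, px a hax⟩ b hb) (qx b hbx)
    · rintro e he ⟨a, ha, hax⟩ b hb hbx
      exact hdj b (qy b hbx) (l2 e he ⟨a, ha, py a hax⟩ b hb)
    · intro z hz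
      exact ⟨(k1 _ (hp z hz).1).1.1, (l1 _ (hp z hz).2).1.1⟩
    · intro z hz
      exact ⟨(l1 _ (hq z hz).1).1.1, (k1 _ (hq z hz).2).1.1⟩
  have hx : ∀ a ∈ p.map Prod.fst ++ q.map Prod.fst, a ∈ Kp c π L F v ∨ a ∈ Kp c π L F v' := by
    intro a ha
    rcases List.mem_append.1 ha with h4 | h4
    · exact Or.inl (px a h4)
    · exact Or.inr (qx a h4)
  have hy : ∀ a ∈ p.map Prod.snd ++ q.map Prod.snd, a ∈ Kp c π L F v ∨ a ∈ Kp c π L F v' := by
    intro a ha
    rcases List.mem_append.1 ha with h4 | h4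
    · exact Or.inr (py a h4)
    · exact Or.inl (qy a h4)
  have mkl : ∀ x : List ℕ, (∀ a ∈ x, a ∈ Kp c π L F v ∨ a ∈ Kp c π L F v') → G.Mb π B x :=
    fun x hx a ha => (hx a ha).elim (fun h => (k1 a h).2.1 a (List.mem_singleton.2 rfl))
      fun h => (l1 a h).2.1 a (List.mem_singleton.2 rfl)
  have h2 := hSEP n c Sm G π B hS.bt.bs _ _ (D ++ L) (by simp) (mkl _ hx) (mkl _ hy)
    (by
      intro a ha
      rcases List.mem_append.1 ha with h4 | h4
      · exact (hD a h4).1.1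
      · exact ((hS.L1 a).1 h4).2)
    (by
      rintro e he ⟨b, hb, hbC⟩ a ha
      have key : ¬ (a ∈ Kp c π L F v ∨ a ∈ Kp c π L F v') := by
        intro haK
        have hbK : b ∈ Kp c π L F v ∨ b ∈ Kp c π L F v' := haK.elim
          (fun h => Or.inl (k2 e he ⟨a, ha, h⟩ b hb)) fun h => Or.inr (l2 e he ⟨a, ha, h⟩ b hb)
        rcases List.mem_append.1 hbC with h4 | h4
        · rcases hbK with h | h
          · exact (hD b h4).2.1 h
          · exact (hD b h4).2.2 h
        · rcases hbK with h | h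
          · exact (k1 b h).1.2 (List.mem_append_left _ h4)
          · exact (l1 b h).1.2 (List.mem_append_left _ h4)
      exact ⟨fun h => key (hx a h), fun h => key (hy a h)⟩)
    h1
  have hz2 : (p.map Prod.fst ++ q.map Prod.fst).zip (p.map Prod.snd ++ q.map Prod.snd) =
      p ++ q := by
    rw [← List.map_append, ← List.map_append, hzip]
  rw [hz2] at h2
  refine h2.mono fun z hz => ?_
  rcases List.mem_append.1 hz with h4 | h4
  · have h5 := mem_dg.1 h4
    exact List.mem_append_left _ (mem_dg.2 ⟨h5.1, List.mem_append_left _ h5.2⟩)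
  rcases List.mem_append.1 h4 with h5 | h5
  · have h6 := mem_dg.1 h5
    rcases List.mem_append.1 h6.2 with h7 | h7
    · exact List.mem_append_left _ (mem_dg.2 ⟨h6.1, List.mem_append_right _ h7⟩)
    · refine List.mem_append_right _ (List.mem_append_left _ (mem_dg.2 ⟨h6.1, ?_⟩))
      exact hS.bt.bs.dlB (zl_sub_dl π h7)
  · exact List.mem_append_right _ (List.mem_append_right _ h5)

end Pool.Agent.CR
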